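import Pool.Agent.U553.HY.Defs
import Pool.Agent.Results.MP_807c24_nt.AlmostAllCoefficients

/-!
# MP_807c24_nt: relations between the coefficients of the KZ associator, off a bounded number of hyperplanes of exponents

A pattern in `k` variables is a nonempty list of letters `b + u_1 s_1 + ... + u_k s_k`; at a tuple `s` of natural numbers
it gives an index. The first letters may be constant, of arbitrary weight, such as in `ζ(5, 1, s_1, 3, s_1 + s_2)`, and all
letters may be constant. A family `(y, Z)` is an element `y` of a commutative `ℚ`-algebra and a function `Z` from the indices to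
the algebra with the stuffle product and with Euler's formula `Z(2 m) = - B_{2m} y ^ (2 m) / (2 (2 m)!)`. For an associator
`(μ, Φ)` the element `y = μ` and the coefficients `Z(u_1, ..., u_r)` of the words `A ^ (u_1 - 1) B ... A ^ (u_r - 1) B` in `Φ`
(up to sign) are a family, by the theorem of Furusho; for the KZ associator it is `2 π i` and the multiple zeta values. The
universal associator gives a family in `ℚ[M]`. The tuple `s` is bad for `(y, Z)` (and `D`, `H`) if a polynomial relation of
degree at most `D` with integer coefficients at most `H` between `2 π i` and the multiple zeta values of the patterns at `s`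
fails for `(y, Z)`. For the universal associator this means that the polynomial is in the kernel of `φ_KZ` and not in `I`.

We consider the tuples `s` with `2 ≤ s_j ≤ κ N` such that in each of the patterns the first letter which is not constant
is at least `N`; the other letters may be small, constant or of intermediate size.

Theorem. (1) If all constant first letters of the patterns are equal and even, in each pattern (or there are none), the
tuples in this range which are bad for `D` and `H = C ^ N`, for one of the families, lie on at most `K` hyperplanes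
`∑ b_j s_j = c` with integral coefficients `|b_j| ≤ K`, for all large `N`, where `K` only depends on the patterns, `D` and `κ`.
This is unconditional.

(2) For arbitrary constant first letters the same holds for the families for which all the polynomial relations between
`2 π i` and the multiple zeta values of the (finitely many) fronts hold.

(3) Conversely, let `(y, Z)` be a family in a domain, with `Z(s) ≠ 0` for all large odd `s` (for example the universal
associator). All polynomial relations between `2 π i` and the multiple zeta values hold for `(y, Z)` (for the universal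
associator: `φ_KZ` is injective) if and only if for all patterns, `D` and `κ` the bad tuples for `(y, Z)` lie on a bounded
number of hyperplanes with bounded coefficients, as in (1).

The theorem `AlmostAllCoefficients` of this page (helper734) bounds the number of the bad tuples in `[N, κ N] ^ k` by
`K N ^ (k - 1)`. This says nothing about families with fewer than `N ^ (k - 1)` tuples, and all the variables have to be
large. The proof uses `Pool.Agent.U553.HY` (elimination between tuples in general position, `Pool.Agent.X90.DC` of the starting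
library) and, for the fronts and the converse, `AlmostAllCoefficients`.
-/

set_option autoImplicit false

namespace Pool.Agent.Results.MP_807c24_nt.BadHyperplanes

open Pool.Agent.Results.MP_807c24_nt.AlmostAllCoefficients
open Pool.Agent.U553.HY (Range OnHyperplanes largeFirst_of)

/-- There is `K` such that for all `C` and all sufficiently large `N` the tuples `s` with the property `E (C ^ N)` such that
`2 ≤ s_j ≤ κ N` and the first letters of the patterns `w_i` which are not constant are at least `N` lie on at most `K`
hyperplanes `∑ b_j s_j = c` with integers `c` and `b_j`, not all zero, `|b_j| ≤ K`. -/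
def OnFewHyperplanes {k r : ℕ} (w : Fin r → List (Letter k)) (κ : ℕ) (E : ℝ → (Fin k → ℕ) → Prop) : Prop :=
  ∃ K : ℕ, ∀ C : ℝ, ∃ N₀ : ℕ, ∀ N : ℕ, N₀ ≤ N → OnHyperplanes K {s : Fin k → ℕ | s ∈ Range w κ N ∧ E (C ^ N) s}

theorem OnFewHyperplanes.mono {k r κ : ℕ} {w : Fin r → List (Letter k)} {E E' : ℝ → (Fin k → ℕ) → Prop}
    (h : OnFewHyperplanes w κ E) (hE : ∀ H s, E' H s → E H s) : OnFewHyperplanes w κ E' := by
  obtain ⟨K, hK⟩ := h
  refine ⟨K, fun C => ?_⟩
  obtain ⟨N₀, hN⟩ := hK C
  exact ⟨N₀, fun N hN' => (hN N hN').mono fun s hs => ⟨hs.1, hE _ _ hs.2⟩⟩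

theorem OnFewHyperplanes.few {k r κ : ℕ} {w : Fin r → List (Letter k)} {E : ℝ → (Fin k → ℕ) → Prop}
    (h : OnFewHyperplanes w κ E) : Few κ E := by
  obtain ⟨K, hK⟩ := h
  refine ⟨K * (κ + 1) ^ (k - 1), fun C => ?_⟩
  obtain ⟨N₀, hN⟩ := hK C
  refine ⟨N₀ + 2, fun N hN' => ?_⟩
  refine OnHyperplanes.ncard (N := N) (κ := κ) (by omega) ((hN N (by omega)).mono ?_) fun s hs => hs.1
  rintro s ⟨h1, h2⟩
  exact ⟨⟨fun j => ⟨le_trans (by omega) (h1 j).1, (h1 j).2⟩, fun i => largeFirst_of (fun j => (h1 j).1) _⟩, h2⟩

/-- part (2) -/
theorem part2H {k r : ℕ} (w : Fin r → List (Letter k)) (hw : ∀ i, AdmissiblePattern (w i)) (D κ : ℕ) :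
    OnFewHyperplanes w κ (BadFor w D fun _ _ _ y Z => Transfers (fronts w) y Z) := by
  classical
  obtain ⟨K, hK⟩ := Pool.Agent.U553.HY.genH 1 k r D w (fun i => (hw i).2) (fronts w)
    (fun i q hq hne => ⟨hne, i, by rw [constantPart_eq]; exact hq⟩) κ
  refine ⟨K, fun C => ?_⟩
  obtain ⟨N₀, hN₀⟩ := hK C (fun _ => mu)
  refine ⟨N₀, fun N hN => ((hN₀ N hN).mono fun s hs => ?_)⟩
  obtain ⟨⟨h1, hb⟩, A, i1, i2, y, Z, hZ, hF, P, h2, h3, h4, h5⟩ := hs
  refine ⟨h1, fun i => (hb i).big, P, h2, h3, ?_, fun h => h5 ?_⟩
  · rw [← h4, mzv_fun]
    rfl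
  · have h8 := h A (fun _ => y) Z (rel_of w y Z hF) (st_of hZ)
    have h9 : ∀ i, Pool.Agent.X90.DB.ex Z (Pool.Agent.X90.DB.ix s (w i)) = Z (index s (w i)) :=
      fun i => Pool.Agent.X90.DB.ex_ne Z (index_ne s (hw i).1)
    simp only [h9] at h8
    exact h8

/-- part (1) -/
theorem part1H {k r : ℕ} (w : Fin r → List (Letter k)) (hw : ∀ i, AdmissiblePattern (w i))
    (he : ∀ i, EvenFront (w i)) (D κ : ℕ) :
    OnFewHyperplanes w κ (BadFor w D fun _ _ _ _ _ => True) := by
  refine (part2H w hw D κ).mono fun H s => ?_
  rintro ⟨A, i1, i2, y, Z, hZ, -, hB⟩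
  refine ⟨A, i1, i2, y, Z, hZ, ?_, hB⟩
  intro f hf
  rw [mzv_fun] at hf
  exact Pool.Agent.N734.MZ.even_transfer_mu (fun u : {u : List ℕ // Admissible u ∧ u ∈ fronts w} => u.1)
    (fronts_even w he) y Z (st_of hZ) hZ.euler f hf

/-- for all patterns, `D` and `κ` the tuples which are bad for `(y, Z)` lie on few hyperplanes -/
def BadOnHyperplanes {A : Type} [CommRing A] (y : A) (Z : List ℕ → A) : Prop :=
  ∀ (k r : ℕ) (w : Fin r → List (Letter k)), (∀ i, AdmissiblePattern (w i)) → ∀ D κ : ℕ,
    OnFewHyperplanes w κ fun H s => Bad w D H y Z s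

theorem transfers_mono {A : Type} [CommRing A] [Algebra ℚ A] (S : Set (List ℕ)) (y : A) (Z : List ℕ → A)
    (h : Transfers Set.univ y Z) : Transfers S y Z := by
  intro f hf
  let ρ : Fin 1 ⊕ {u : List ℕ // Admissible u ∧ u ∈ S} →
      Fin 1 ⊕ {u : List ℕ // Admissible u ∧ u ∈ (Set.univ : Set (List ℕ))} :=
    Sum.map id fun u => ⟨u.1, u.2.1, trivial⟩
  have h0 : ∀ (B : Type) [CommRing B] [Algebra ℚ B] (x : B) (Y : List ℕ → B),
      MvPolynomial.aeval (Sum.elim (fun _ => x) fun u => Y u.1) (MvPolynomial.rename ρ f) =
      MvPolynomial.aeval (Sum.elim (fun _ => x) fun u => Y u.1) f := by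
    intro B _ _ x Y
    rw [MvPolynomial.aeval_rename]
    congr 2
    funext i
    rcases i with i | i
    · rfl
    · rfl
  have h1 := h (MvPolynomial.rename ρ f) (by
    rw [h0 ℂ mu fun u => ((mzv u : ℝ) : ℂ)]
    exact hf)
  rw [h0 A y Z] at h1
  exact h1

/-- **Theorem.** Let `D`, `κ` be natural numbers and `w_1, ..., w_r` admissible patterns in `k` variables. (1) If the fronts
are even there is `K` such that for all `C` and all large `N` the following tuples `s` lie on at most `K` hyperplanes
`∑ b_j s_j = c` with integers `c` and `b_j`, not all zero, `|b_j| ≤ K`: the tuples with `2 ≤ s_j ≤ κ N`, for which the first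
letters of the patterns which are not constant are at least `N`, and which are bad, for the degree `D` and the height `C ^ N`,
for one of the families `(y, Z)`. (2) For arbitrary fronts the same holds for the families for which the relations between
`2 π i` and the multiple zeta values of the fronts hold. (3) For a family `(y, Z)` in a domain, with `Z(s) ≠ 0` for all large
odd `s`, all polynomial relations between `2 π i` and the multiple zeta values hold for `(y, Z)` if and only if for all
patterns, `D`, `κ` the bad tuples for `(y, Z)` in this range lie on at most `K` such hyperplanes, for some `K` and all `C` and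
all large `N`. -/
theorem result :
    (∀ (k r : ℕ) (w : Fin r → List (Letter k)), (∀ i, AdmissiblePattern (w i)) → (∀ i, EvenFront (w i)) →
      ∀ D κ : ℕ, OnFewHyperplanes w κ (BadFor w D fun _ _ _ _ _ => True)) ∧
    (∀ (k r : ℕ) (w : Fin r → List (Letter k)), (∀ i, AdmissiblePattern (w i)) → ∀ D κ : ℕ,
      OnFewHyperplanes w κ (BadFor w D fun _ _ _ y Z => Transfers (fronts w) y Z)) ∧
    ∀ (A : Type) [CommRing A] [IsDomain A] [Algebra ℚ A] (y : A) (Z : List ℕ → A), IsFamily y Z →
      (∃ s₀, ∀ s, s₀ ≤ s → Odd s → Z [s] ≠ 0) → (Transfers Set.univ y Z ↔ BadOnHyperplanes y Z) := by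
  refine ⟨fun k r w hw he D κ => part1H w hw he D κ, fun k r w hw D κ => part2H w hw D κ, ?_⟩
  intro A _ _ _ y Z hZ hs
  constructor
  · intro h k r w hw D κ
    refine (part2H w hw D κ).mono fun H s hB => ?_
    exact ⟨A, inferInstance, inferInstance, y, Z, hZ, transfers_mono _ y Z h, hB⟩
  · intro h
    refine ((AlmostAllCoefficients.result.2.2 A y Z hZ hs).1).2 ?_
    intro k r w hw D κ
    exact (h k r w hw D κ).few

end Pool.Agent.Results.MP_807c24_nt.BadHyperplanes
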