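import Pool.Agent.U536.DS.Scales
import Pool.Agent.Results.MP_807c24_nt.AlmostAllCoefficients

/-!
# Relations between the coefficients of the KZ associator at the integral combinations of two divisors of the values
# of arithmetic functions

A pattern in `k` variables is a nonempty list of letters `b + u_1 s_1 + ... + u_k s_k`; at a tuple `s` of natural numbers
it gives an index. The first letters may be constant. A family `(y, Z)` is an element `y` of a commutative `ℚ`-algebra and
a function `Z` from the indices to the algebra with the stuffle product and with Euler's formula `Z(2 m) = - B_{2m} y ^ (2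
m) / (2 (2 m)!)`; for example `y = μ` and the coefficients of the words `A ^ (u_1 - 1) B ... A ^ (u_r - 1) B` (up to sign)
of an associator `(μ, Φ)`, by Furusho's theorem, in particular of the universal associator; for the KZ associator it is `2
π i` and the multiple zeta values. The tuple `s` is bad (for `D`, `H`) if a polynomial relation of degree at most `D` with
integer coefficients at most `H` between `2 π i` and the multiple zeta values of the patterns at `s` fails for `(y, Z)`;
for the universal associator, if the polynomial is in the kernel of `φ_KZ` and not in `I`.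

Let `F_1, …, F_k` be positive multiplicative functions of at most polynomial growth such that `F_i p ≤ M p` for the large
primes `p`, with different values at different large primes; for example Euler's function or the sum of the divisors. Let
`μ < b < 1`, `0 ≤ c < 2 b - 1` and `θ ≥ 0` with `k θ < 1`. An argument tuple `m ∈ [1, N] ^ k` is good if for EVERY tuple
`v` of integers `v_i ≥ exp ((log N)^b)` of the form `v_i = h e + h' e'` with divisors `e`, `e'` of `F_i(m_i)` and integers
`|h|, |h'| ≤ exp ((log N)^μ)` (depending on `i`), NO tuple `s` with `|s_i - v_i| ≤ v_i ^ θ` in a cone `T ≤ s_i ≤ κ T` is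
bad for `D` and `H = C ^ T`.

Theorem. For all large `N`, all but `N^k exp (-(log N)^c)` of the `m ∈ [1, N] ^ k` are good, for all families `(y, Z)` at
once if the constant fronts of the patterns are even (`2a, ..., 2a`, or empty), unconditionally, and for arbitrary
patterns for all families for which all the relations between `2 π i` and the multiple zeta values of the (finitely many)
fronts hold. The tuples `v` include all tuples of large sums and differences `v_i` of ANY two divisors of the `F_i(m_i)`.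

Proof. But for few exceptional `m_i ≤ N`, the number of `m_i` with `g ∣ F_i(m_i)` is at most `N τ_J(g) / g` up to a factor
`exp ((log N)^s)`, `J = (log N)^a`, `a < s < b`, for all `g`: write `m_i = k' u` with `u` squarefree and composed of
primes larger than `N^(1/J)`, `k' ≤ exp (4 (log N)^a)`. Take for `g` the least common multiples of the pairs `(e, e')`:
the sum of `1 / [e, e']` over the pairs `e, e' ≤ X` with `h e + h' e' = w` is at most `4 U (1 + log X) τ(w) / w` if `|h|,
|h'| ≤ U`; the exceptional tuples at all scales together with their windows have a power saving, and Hölder's inequality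
for tuples with `τ_J^q ≤ τ_K`, `K ≥ J^q`, bounds the sum over the tuples of pairs. The sums and differences of two
divisors of `F_i(m_i)` have in general no large common factors with `F_i(m_i)` (hand-in `CommonFactors` of this page). The
file `AlmostAllCoefficients` of the starting library bounds the number of the bad tuples in the boxes `[N, κ N] ^ k` by `K
N ^ (k - 1)`.
-/

set_option autoImplicit false

namespace Pool.Agent.Results.MP_807c24_nt.DivisorSums

open Pool.Agent.N733.TG (LM lm_totient lm_sigma)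
open Pool.Agent.U536.DS (Comb comb_pm comb_orders comb_scales')
open Pool.Agent.Results.MP_807c24_nt.AlmostAllCoefficients
  (mzv mu Letter index AdmissiblePattern fronts EvenFront IsFamily Transfers Bad BadFor Few)

/-- For all large `N`, for all but `N^k exp (-(log N)^c)` of the tuples `m ∈ [1, N] ^ k`, for EVERY tuple `v` of integers `v_i
≥ exp ((log N)^b)` of the form `v_i = h e + h' e'`, `e, e' ∣ F_i(m_i)`, `|h|, |h'| ≤ exp ((log N)^μ)`, the property `E (C
^ T)` fails for ALL tuples `s` with `|s_i - v_i| ≤ v_i ^ θ` and `T ≤ s_i ≤ κ T`, `T ≥ 1`. -/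
def FewNear {k : ℕ} (κ : ℕ) (C : ℝ) (F : Fin k → ℕ → ℕ) (θ μ b c : ℝ) (E : ℝ → (Fin k → ℕ) → Prop) : Prop :=
  ∃ N₀ : ℕ, ∀ N : ℕ, N₀ ≤ N →
    ({m : Fin k → ℕ | (∀ i, 1 ≤ m i ∧ m i ≤ N) ∧ ∃ v : Fin k → ℕ, (∀ i, Comb (F i) b μ N (m i) (v i)) ∧
      ∃ (s : Fin k → ℕ) (T : ℕ), 1 ≤ T ∧ (∀ i, T ≤ s i ∧ s i ≤ κ * T) ∧ (∀ i, |(s i : ℝ) - v i| ≤ (v i : ℝ) ^ θ) ∧
      E (C ^ T) s}.ncard : ℝ) ≤ (N : ℝ) ^ k * Real.exp (-(Real.log N ^ c))

lemma pow_bound (C : ℝ) {N T : ℕ} (h : T ≤ 2 * N) : C ^ T ≤ ((max |C| 1) ^ 2) ^ N := by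
  have h5 : (1 : ℝ) ≤ max |C| 1 := le_max_right _ _
  calc C ^ T ≤ |C ^ T| := le_abs_self _
    _ = |C| ^ T := abs_pow C T
    _ ≤ (max |C| 1) ^ T := pow_le_pow_left₀ (abs_nonneg C) (le_max_left _ _) T
    _ ≤ (max |C| 1) ^ (2 * N) := pow_le_pow_right₀ h5 h
    _ = _ := pow_mul _ _ _

lemma near_of_few {k : ℕ} (hk : 1 ≤ k) (κ : ℕ) (C : ℝ) {F : Fin k → ℕ → ℕ} (hF : ∀ i, LM (F i)) {θ μ b c : ℝ} (hθ : 0 ≤ θ)
    (hk1 : k * θ < 1) (hμ : μ < b) (hb : b < 1) (hc : 0 ≤ c) (hcb : c < 2 * b - 1)
    {E : ℝ → (Fin k → ℕ) → Prop} (hE : ∀ H H' s, H ≤ H' → E H s → E H' s)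
    (h : Few (2 * κ) E) : FewNear κ C F θ μ b c E := by
  obtain ⟨K, hK⟩ := h
  obtain ⟨N₁, hN₁⟩ := hK ((max |C| 1) ^ 2)
  obtain ⟨N₀, hN₀⟩ := comb_scales' hk κ (fun T s => E (C ^ T) s)
    (fun N s => E (((max |C| 1) ^ 2) ^ N) s)
    (fun N T s h1 h2 h3 => hE _ _ s (pow_bound C h2.le) h3)
    ⟨K, N₁, fun N hN => hN₁ N hN⟩ hF hθ hk1 hμ hb hc hcb
  refine ⟨N₀, fun N hN => le_trans (le_of_eq ?_) (hN₀ N hN)⟩
  congr 2
  ext m
  constructor
  · rintro ⟨h1, v, hv, s, T, h2, h3, h4, h5⟩
    exact ⟨h1, fun h => h v hv s T h2 h3 h4 h5⟩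
  · rintro ⟨h1, h2⟩
    push Not at h2
    obtain ⟨v, hv, s, T, h2, h3, h4, h5⟩ := h2
    exact ⟨h1, v, hv, s, T, h2, h3, h4, h5⟩

lemma badFor_mono {k r : ℕ} (w : Fin r → List (Letter k)) (D : ℕ)
    (F : ∀ (A : Type) [CommRing A] [Algebra ℚ A], A → (List ℕ → A) → Prop) (H H' : ℝ) (s : Fin k → ℕ) (h : H ≤ H')
    (hB : BadFor w D F H s) : BadFor w D F H' s := by
  obtain ⟨A, i1, i2, y, Z, h1, h2, P, h3, h4, h5⟩ := hB
  exact ⟨A, i1, i2, y, Z, h1, h2, P, h3, fun m => (h4 m).trans h, h5⟩

/-- **Relations between the coefficients of the KZ associator at the integral combinations of two divisors of the values of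
arithmetic functions.** Let `w_1, ..., w_r` be admissible patterns in `k ≥ 1` variables, `D`, `κ` natural numbers, `C` a
real number, `F_1, ..., F_k` functions with `LM`, `θ ≥ 0`, `k θ < 1`, `μ < b < 1`, `0 ≤ c < 2 b - 1`. For all large `N`,
for all but `N^k exp (-(log N)^c)` of the `m ∈ [1, N] ^ k`, for EVERY tuple `v` of integers `v_i ≥ exp ((log N)^b)` of the
form `v_i = h e + h' e'` with divisors `e`, `e'` of `F_i(m_i)` and integers `|h|, |h'| ≤ exp ((log N)^μ)`, no tuple `s`
with `|s_i - v_i| ≤ v_i ^ θ` and `T ≤ s_i ≤ κ T` is bad, for the degree `D` and the height `C ^ T`, for a family `(y, Z)`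
for which the relations between `2 π i` and the multiple zeta values of the fronts hold; if the fronts are even, for any
family. Euler's function and the sum of the divisors satisfy `LM`. The sums and differences `≥ exp ((log N)^b)` of two
divisors of `F_i(m_i)` are such integers, and for Euler's function those of the orders of two units modulo `m_i`. -/
theorem result :
    (∀ (k r : ℕ), 1 ≤ k → ∀ w : Fin r → List (Letter k), (∀ i, AdmissiblePattern (w i)) → ∀ (D κ : ℕ) (C : ℝ)
      (F : Fin k → ℕ → ℕ), (∀ i, LM (F i)) → ∀ θ μ b c : ℝ, 0 ≤ θ → k * θ < 1 → μ < b →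
      b < 1 → 0 ≤ c → c < 2 * b - 1 →
      FewNear κ C F θ μ b c (BadFor w D fun _ _ _ y Z => Transfers (fronts w) y Z) ∧
      ((∀ i, EvenFront (w i)) → FewNear κ C F θ μ b c (BadFor w D fun _ _ _ _ _ => True))) ∧
    (LM Nat.totient ∧ LM (fun m => ∑ d ∈ m.divisors, d)) ∧
    (∀ (f : ℕ → ℕ) (b μ : ℝ) (N m s t : ℕ), s ∣ f m → t ∣ f m →
      (Real.exp (Real.log N ^ b) ≤ ((s + t : ℕ) : ℝ) → Comb f b μ N m (s + t)) ∧
      (Real.exp (Real.log N ^ b) ≤ ((s - t : ℕ) : ℝ) → Comb f b μ N m (s - t)) ∧
      (Real.exp (Real.log N ^ b) ≤ (s : ℝ) → Comb f b μ N m s)) ∧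
    ∀ (b μ : ℝ) (N m : ℕ) (x y : (ZMod m)ˣ),
      (Real.exp (Real.log N ^ b) ≤ ((orderOf x + orderOf y : ℕ) : ℝ) → Comb Nat.totient b μ N m (orderOf x + orderOf y)) ∧
      (Real.exp (Real.log N ^ b) ≤ ((orderOf x - orderOf y : ℕ) : ℝ) → Comb Nat.totient b μ N m (orderOf x - orderOf y)) := by
  refine ⟨fun k r hk w hw D κ C F hF θ μ b c hθ hk1 hμ hb hc hcb => ⟨?_, fun he => ?_⟩, ⟨lm_totient, lm_sigma⟩,
    fun f b μ N m s t hs ht => comb_pm hs ht, fun b μ N m x y => comb_orders x y⟩
  · exact near_of_few hk κ C hF hθ hk1 hμ hb hc hcb (fun H H' s => badFor_mono w D _ H H' s)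
      (AlmostAllCoefficients.result.2.1 k r w hw D (2 * κ))
  · exact near_of_few hk κ C hF hθ hk1 hμ hb hc hcb (fun H H' s => badFor_mono w D _ H H' s)
      (AlmostAllCoefficients.result.1 k r w hw he D (2 * κ))

end Pool.Agent.Results.MP_807c24_nt.DivisorSums
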