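import Pool.Agent.Results.MP_807c24_nt.BadHyperplanes

/-!
# MP_807c24_nt: relations between the coefficients of the KZ associator at words with exponents near the values of
# polynomials and of other dispersed sequences

A pattern in `k` variables is a nonempty list of letters `b + u_1 s_1 + ... + u_k s_k`; at a tuple `s` of natural numbers
it gives an index. The first letters may be constant. A family `(y, Z)` is an element `y` of a commutative `ℚ`-algebra and a
function `Z` from the indices to the algebra with the stuffle product and with Euler's formula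
`Z(2 m) = - B_{2m} y ^ (2 m) / (2 (2 m)!)`; for the KZ associator it is `2 π i` and the multiple zeta values, and the universal
associator gives a family in `ℚ[M]` (Furusho). The tuple `s` is bad for `(y, Z)` (and `D`, `H`) if a polynomial relation of
degree at most `D` with integer coefficients at most `H` between `2 π i` and the multiple zeta values of the patterns at `s`
fails for `(y, Z)`. For the universal associator this means that the polynomial is in the kernel of `φ_KZ` and not in `I`.
Real sequences `F_1, ..., F_k` are dispersed if for every nonzero integer vector `b` the intervals of length two contain a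
bounded number of the `∑ b_j F_j(n)`; for example the values of real polynomials of which no nontrivial integer combination is
constant.

Theorem. (1) Let `F_1, ..., F_k` be dispersed. For all large `N` and ALL `W` there are at most `K (W + 1)` numbers `n` for which
a tuple `s` near `F(n)`, `|s_j - F_j(n)| ≤ W`, in the range of the scale `N` (`2 ≤ s_j ≤ κ N`, and in each of the patterns the
first letter which is not constant is at least `N`) is bad for `D` and `H = C ^ N`, for one of the families, if the constant
first letters of each pattern are equal and even (or if there are none). This is unconditional. (2) For arbitrary patterns it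
holds for the families for which the relations between `2 π i` and the multiple zeta values of the (finitely many) fronts hold.

(4) Conversely, let `(y, Z)` be a family in a domain, with `Z(s) ≠ 0` for all large odd `s` (for example the universal
associator), and let `G(1), G(2), …` be any sequence of odd natural numbers which tends to infinity, however sparse. Then the
following are equivalent: (a) all polynomial relations between `2 π i` and the multiple zeta values hold for `(y, Z)` (for the
universal associator: `φ_KZ` is injective); (b) the conclusion of (1) holds for `(y, Z)`, for all patterns and all dispersed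
families; (c) for all patterns in one variable with exactly one letter which is not constant, `s + b`, and all `B` there are
arbitrarily large `n` for which all LINEAR relations with integer coefficients at most `B` between the multiple zeta values of
the patterns at `s = G(n)` hold for `Z`.

One-parameter families such as the coefficients of the words `A ^ (n^2) B A ^ n B` have much less than `N ^ (k - 1)` members
if `k ≥ 2`; so (1) does not follow from the number of the bad tuples (`AlmostAllCoefficients`, helper734).
-/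

set_option autoImplicit false

open Filter

namespace Pool.Agent.Results.MP_807c24_nt.PolynomialWords

open Pool.Agent.Results.MP_807c24_nt.AlmostAllCoefficients
open Pool.Agent.Results.MP_807c24_nt.BadHyperplanes (OnFewHyperplanes part1H part2H transfers_mono)
open Pool.Agent.U553.HY (Range OnHyperplanes Dispersed)

/-- There is `K` such that for all `C`, all sufficiently large `N` and all `W` there are at most `K (W + 1)` numbers `n` for
which some tuple `s` with `|s_j - F_j(n)| ≤ W` and `2 ≤ s_j ≤ κ N`, such that the first letters of the patterns `w_i` which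
are not constant are at least `N`, has the property `E (C ^ N)`. -/
def FewNear {k r : ℕ} (w : Fin r → List (Letter k)) (κ : ℕ) (F : Fin k → ℕ → ℝ) (E : ℝ → (Fin k → ℕ) → Prop) : Prop :=
  ∃ K : ℕ, ∀ C : ℝ, ∃ N₀ : ℕ, ∀ N : ℕ, N₀ ≤ N → ∀ W : ℕ,
    {n : ℕ | ∃ s ∈ Range w κ N, (∀ j, |(s j : ℝ) - F j n| ≤ W) ∧ E (C ^ N) s}.encard ≤ (K * (W + 1) : ℕ)

theorem fewNear {k r κ : ℕ} {w : Fin r → List (Letter k)} {F : Fin k → ℕ → ℝ} (hF : Dispersed F)
    {E : ℝ → (Fin k → ℕ) → Prop} (h : OnFewHyperplanes w κ E) : FewNear w κ F E := by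
  obtain ⟨K, hK⟩ := h
  obtain ⟨K', hK'⟩ := hF.few K
  refine ⟨K', fun C => ?_⟩
  obtain ⟨N₀, hN₀⟩ := hK C
  refine ⟨N₀, fun N hN W => (Set.encard_le_encard ?_).trans (hK' _ (hN₀ N hN) W)⟩
  rintro n ⟨s, h1, h2, h3⟩
  exact ⟨s, ⟨h1, h3⟩, h2⟩

/-- statement (b) -/
def AlongDispersed {A : Type} [CommRing A] (y : A) (Z : List ℕ → A) : Prop :=
  ∀ (k r : ℕ) (w : Fin r → List (Letter k)), (∀ i, AdmissiblePattern (w i)) → ∀ (D κ : ℕ) (F : Fin k → ℕ → ℝ),
    Dispersed F → FewNear w κ F fun H s => Bad w D H y Z s

/-- statement (c), for the sequence `G` -/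
def LinearAlong {A : Type} [CommRing A] (Z : List ℕ → A) (G : ℕ → ℕ) : Prop :=
  ∀ (r : ℕ) (w : Fin r → List (Letter 1)), (∀ i, AdmissiblePattern (w i) ∧ OneLarge (w i)) → ∀ B n₁ : ℕ,
    ∃ n, n₁ ≤ n ∧ ∀ a : Fin r → ℤ, (∀ i, |a i| ≤ B) →
      ∑ i, (a i : ℝ) * mzv (index (fun _ => G n) (w i)) = 0 →
      ∑ i, (a i : A) * Z (index (fun _ => G n) (w i)) = 0

theorem c_to_large {A : Type} [CommRing A] (Z : List ℕ → A) (G : ℕ → ℕ) (hG : ∀ n, Odd (G n))
    (hG' : Tendsto G atTop atTop) (h : LinearAlong Z G) : OneLargeArgument Z := by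
  intro r w hw B s₁
  obtain ⟨n₁, hn₁⟩ := eventually_atTop.1 (hG'.eventually_ge_atTop s₁)
  obtain ⟨n, hn, h1⟩ := h r w hw B n₁
  exact ⟨G n, hn₁ n hn, hG n, h1⟩

theorem dispersed_id : Dispersed (fun (_ : Fin 1) (n : ℕ) => (n : ℝ)) := by
  have h := Pool.Agent.U553.HY.dispersed_poly (fun _ : Fin 1 => (Polynomial.X : Polynomial ℝ)) (fun b hb => by
    have hb0 : b 0 ≠ 0 := by
      intro h0
      apply hb
      funext i
      rw [Subsingleton.elim i 0, h0]
      rfl
    rw [Fin.sum_univ_one, Polynomial.natDegree_smul _ (by exact_mod_cast hb0), Polynomial.natDegree_X]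
    exact one_pos)
  simpa using h

/-- the linear polynomial -/
theorem lin_poly {r : ℕ} (a : Fin r → ℤ) (B : ℕ) (ha : ∀ i, |a i| ≤ B) (N : ℕ) (hN : 1 ≤ N) :
    ∃ P : MvPolynomial (Fin 1 ⊕ Fin r) ℤ, P.totalDegree ≤ 1 ∧ (∀ m, |((P.coeff m : ℤ) : ℝ)| ≤ (B + 1 : ℝ) ^ N) ∧
      ∀ (A : Type) [CommRing A] (x : Fin 1 → A) (v : Fin r → A),
        MvPolynomial.aeval (Sum.elim x v) P = ∑ i, (a i : A) * v i := by
  classical
  refine ⟨∑ i, MvPolynomial.C (a i) * MvPolynomial.X (Sum.inr i), ?_, fun m => ?_, fun A _ x v => ?_⟩
  · refine MvPolynomial.totalDegree_finsetSum_le fun i _ => ?_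
    refine (MvPolynomial.totalDegree_mul _ _).trans ?_
    rw [MvPolynomial.totalDegree_C, zero_add]
    exact (MvPolynomial.totalDegree_X _).le
  · rw [MvPolynomial.coeff_sum]
    simp only [MvPolynomial.coeff_C_mul, MvPolynomial.coeff_X]
    have hB1 : (B : ℝ) ≤ (B + 1 : ℝ) ^ N := by
      have h3 : (B + 1 : ℝ) ^ 1 ≤ (B + 1 : ℝ) ^ N :=
        pow_le_pow_right₀ (by have := Nat.cast_nonneg (α := ℝ) B; linarith) hN
      rw [pow_one] at h3
      linarith
    refine le_trans ?_ hB1
    by_cases hm : ∃ i : Fin r, Finsupp.single (Sum.inr i : Fin 1 ⊕ Fin r) 1 = m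
    · obtain ⟨i₀, rfl⟩ := hm
      have h4 : ∑ x, a x * (if Finsupp.single (Sum.inr x : Fin 1 ⊕ Fin r) 1 =
          Finsupp.single (Sum.inr i₀) 1 then (1 : ℤ) else 0) = a i₀ := by
        rw [Finset.sum_eq_single i₀]
        · rw [if_pos rfl, mul_one]
        · intro x _ hx
          rw [if_neg, mul_zero]
          intro h5
          exact hx (Sum.inr_injective ((Finsupp.single_left_inj one_ne_zero).1 h5))
        · intro h5
          exact absurd (Finset.mem_univ _) h5
      rw [h4]
      exact_mod_cast ha i₀
    · have h4 : ∑ x, a x * (if Finsupp.single (Sum.inr x : Fin 1 ⊕ Fin r) 1 = m then (1 : ℤ) else 0) = 0 := by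
        refine Finset.sum_eq_zero fun x _ => ?_
        rw [if_neg fun h5 => hm ⟨x, h5⟩, mul_zero]
      rw [h4, Int.cast_zero, abs_zero]
      exact Nat.cast_nonneg _
  · rw [map_sum]
    refine Finset.sum_congr rfl fun i _ => ?_
    rw [map_mul, MvPolynomial.aeval_C, MvPolynomial.aeval_X]
    rfl

theorem b_to_large {A : Type} [CommRing A] (y : A) (Z : List ℕ → A) (h : AlongDispersed y Z) :
    OneLargeArgument Z := by
  classical
  intro r w hw B s₁
  by_contra hcon
  push Not at hcon
  obtain ⟨K, hK⟩ := h 1 r w (fun i => (hw i).1) 1 4 _ dispersed_id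
  obtain ⟨N₀, hN⟩ := hK (B + 1 : ℝ)
  set N := N₀ + s₁ + K + 2 with hNdef
  have h1 := hN N (by omega) 0
  let φ : ℕ → ℕ := fun i => 2 * (N + i) + 1
  have hφ : Function.Injective φ := by
    intro i j hij
    simp only [φ] at hij
    omega
  have h2 : φ '' ((Finset.range (K + 1) : Finset ℕ) : Set ℕ) ⊆
      {n : ℕ | ∃ s ∈ Range w 4 N, (∀ j, |(s j : ℝ) - (fun (_ : Fin 1) (n : ℕ) => (n : ℝ)) j n| ≤ ((0 : ℕ) : ℝ)) ∧
        Bad w 1 ((B + 1 : ℝ) ^ N) y Z s} := by
    rintro n ⟨i, hi, rfl⟩
    rw [Finset.mem_coe, Finset.mem_range] at hi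
    have e1 : 2 ≤ 2 * (N + i) + 1 := by omega
    have e2 : 2 * (N + i) + 1 ≤ 4 * N := by omega
    have e3 : N ≤ 2 * (N + i) + 1 := by omega
    refine ⟨fun _ => 2 * (N + i) + 1, ⟨fun j => ⟨e1, e2⟩, fun i' =>
      Pool.Agent.U553.HY.largeFirst_of (fun j => e3) _⟩, fun j => ?_, ?_⟩
    · simp only [φ]
      simp
    · obtain ⟨a, ha, hR, hA⟩ := hcon (2 * (N + i) + 1) (by omega) ⟨N + i, rfl⟩
      obtain ⟨P, hP1, hP2, hP3⟩ := lin_poly a B ha N (by omega)
      refine ⟨P, hP1, hP2, ?_, ?_⟩
      · rw [hP3]
        exact_mod_cast hR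
      · rw [hP3]
        exact hA
  have h3 := (Set.encard_le_encard h2).trans h1
  rw [hφ.encard_image, Set.encard_coe_eq_coe_finsetCard, Finset.card_range] at h3
  have h4 : K + 1 ≤ K * (0 + 1) := by exact_mod_cast h3
  omega

theorem adm_index {k : ℕ} {s : Fin k → ℕ} (hs : ∀ j, 2 ≤ s j) {w : List (Letter k)} (hw : AdmissiblePattern w) :
    Admissible (index s w) := by
  have key : ∀ u : Letter k, u.2 ≠ 0 → 2 ≤ u.1 + ∑ j, u.2 j * s j := by
    intro u hu
    obtain ⟨j, hj⟩ : ∃ j, u.2 j ≠ 0 := by
      by_contra h
      push Not at h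
      exact hu (funext h)
    have h1 : u.2 j * s j ≤ ∑ j, u.2 j * s j :=
      Finset.single_le_sum (f := fun j => u.2 j * s j) (fun _ _ => Nat.zero_le _) (Finset.mem_univ j)
    have h2 : s j ≤ u.2 j * s j := Nat.le_mul_of_pos_left _ (Nat.pos_of_ne_zero hj)
    have := hs j
    omega
  obtain ⟨h1, h2, h3⟩ := hw
  cases w with
  | nil => exact absurd rfl h1
  | cons u w =>
    refine ⟨?_, fun t ht => ?_⟩
    · rcases h2 u (by simp) with h | h
      · exact key u h
      · exact h.trans (Nat.le_add_right _ _)
    · rw [List.mem_map] at ht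
      obtain ⟨v, hv, rfl⟩ := ht
      rcases h3 v (List.mem_cons_of_mem _ hv) with h | h
      · exact le_trans (by norm_num) (key v h)
      · exact h.trans (Nat.le_add_right _ _)

theorem a_to_c {A : Type} [CommRing A] [Algebra ℚ A] (y : A) (Z : List ℕ → A) (G : ℕ → ℕ)
    (hG' : Tendsto G atTop atTop) (h : Transfers Set.univ y Z) : LinearAlong Z G := by
  classical
  intro r w hw B n₁
  obtain ⟨n₂, hn₂⟩ := eventually_atTop.1 (hG'.eventually_ge_atTop 2)
  refine ⟨n₁ + n₂, by omega, fun a _ h0 => ?_⟩
  set s : Fin 1 → ℕ := fun _ => G (n₁ + n₂) with hs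
  have hs2 : ∀ j, 2 ≤ s j := fun _ => hn₂ _ (by omega)
  let g : Fin r → {u : List ℕ // Admissible u ∧ u ∈ (Set.univ : Set (List ℕ))} :=
    fun i => ⟨index s (w i), adm_index hs2 (hw i).1, trivial⟩
  have key : ∀ (B : Type) [CommRing B] [Algebra ℚ B] (x : Fin 1 → B) (Y : List ℕ → B),
      MvPolynomial.aeval (Sum.elim x
        fun u : {u : List ℕ // Admissible u ∧ u ∈ (Set.univ : Set (List ℕ))} => Y u.1)
        (∑ i, MvPolynomial.C (a i : ℚ) * MvPolynomial.X (Sum.inr (g i))) =
          ∑ i, (a i : B) * Y (index s (w i)) := by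
    intro B _ _ x Y
    rw [map_sum]
    refine Finset.sum_congr rfl fun i _ => ?_
    rw [map_mul, MvPolynomial.aeval_C, MvPolynomial.aeval_X, map_intCast]
    rfl
  have h1 := h (∑ i, MvPolynomial.C (a i : ℚ) * MvPolynomial.X (Sum.inr (g i))) (by
    rw [key ℂ (fun _ => mu) fun u => ((mzv u : ℝ) : ℂ)]
    exact_mod_cast h0)
  rw [key A (fun _ => y) Z] at h1
  exact h1

/-- **Theorem.** Let `w_1, ..., w_r` be admissible patterns in `k` variables, `D`, `κ` natural numbers and `F_1, ..., F_k` a
dispersed family of real sequences. (1) If the fronts are even there is `K` such that for all `C`, all large `N` and all `W`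
there are at most `K (W + 1)` numbers `n` with the following property: there is a tuple `s`, `|s_j - F_j(n)| ≤ W`,
`2 ≤ s_j ≤ κ N`, for which the first letters of the patterns which are not constant are at least `N`, and which is bad, for
the degree `D` and the height `C ^ N`, for one of the families `(y, Z)`. (2) For arbitrary fronts the same holds for the
families for which the relations between `2 π i` and the multiple zeta values of the fronts hold. (3) The values of real
polynomials of which no nontrivial integer combination is constant are a dispersed family. (4) For a family `(y, Z)` in a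
domain, with `Z(s) ≠ 0` for all large odd `s`, and a sequence `G` of odd numbers which tends to infinity, the following are
equivalent: all polynomial relations between `2 π i` and the multiple zeta values hold for `(y, Z)`; the bad tuples for
`(y, Z)` satisfy the bound of (1), for all patterns, `D`, `κ` and all dispersed families; for all patterns in one variable with
exactly one letter which is not constant, `s + b`, and all `B` there are arbitrarily large `n` for which all linear relations
with integer coefficients at most `B` between the multiple zeta values of the patterns at `G(n)` hold for `Z`. -/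
theorem result :
    (∀ (k r : ℕ) (w : Fin r → List (Letter k)), (∀ i, AdmissiblePattern (w i)) → (∀ i, EvenFront (w i)) →
      ∀ (D κ : ℕ) (F : Fin k → ℕ → ℝ), Dispersed F → FewNear w κ F (BadFor w D fun _ _ _ _ _ => True)) ∧
    (∀ (k r : ℕ) (w : Fin r → List (Letter k)), (∀ i, AdmissiblePattern (w i)) → ∀ (D κ : ℕ) (F : Fin k → ℕ → ℝ),
      Dispersed F → FewNear w κ F (BadFor w D fun _ _ _ y Z => Transfers (fronts w) y Z)) ∧
    (∀ (k : ℕ) (p : Fin k → Polynomial ℝ), (∀ b : Fin k → ℤ, b ≠ 0 → 0 < (∑ j, (b j : ℝ) • p j).natDegree) →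
      Dispersed fun j n => (p j).eval (n : ℝ)) ∧
    ∀ (A : Type) [CommRing A] [IsDomain A] [Algebra ℚ A] (y : A) (Z : List ℕ → A), IsFamily y Z →
      (∃ s₀, ∀ s, s₀ ≤ s → Odd s → Z [s] ≠ 0) → ∀ G : ℕ → ℕ, (∀ n, Odd (G n)) → Tendsto G atTop atTop →
      (Transfers Set.univ y Z ↔ AlongDispersed y Z) ∧ (Transfers Set.univ y Z ↔ LinearAlong Z G) := by
  refine ⟨fun k r w hw he D κ F hF => fewNear hF (part1H w hw he D κ),
    fun k r w hw D κ F hF => fewNear hF (part2H w hw D κ),
    fun k p hp => Pool.Agent.U553.HY.dispersed_poly p hp, ?_⟩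
  intro A _ _ _ y Z hZ hs G hG hG'
  have hback : OneLargeArgument Z → Transfers Set.univ y Z := by
    obtain ⟨s₀, hne⟩ := hs
    exact c_to_a y Z hZ s₀ hne
  refine ⟨⟨fun h k r w hw D κ F hF => ?_, fun h => hback (b_to_large y Z h)⟩,
    ⟨fun h => a_to_c y Z G hG' h, fun h => hback (c_to_large Z G hG hG' h)⟩⟩
  refine fewNear hF ((part2H w hw D κ).mono fun H s hB => ?_)
  exact ⟨A, inferInstance, inferInstance, y, Z, hZ, transfers_mono _ y Z h, hB⟩

end Pool.Agent.Results.MP_807c24_nt.PolynomialWords
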